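import Pool.Agent.H91R3.DC11

/-!
# MP_8704cc_co: the area generating function of `d₋`-convex polyominoes

`numDC n` is the number of `d₋`-convex polyominoes of area `n` up to translation
(`Pool.Agent.H91R3.DCDefs`).  `System X Y Z` (`Pool.Agent.H91R3.DCSys`) is an explicit system of
three linear `q`-functional equations for three series `X(y), Y(y), Z(y)` in `ℤ⟦q⟧⟦y⟧`.

The system has exactly one solution, and `∑ a_n q^n = q + X(q) + 2 Y(q) + Z(q)`.

Proof idea: a polyomino is cut into its lines `x + y = k`; a partial polyomino is described by the
number of cells of the last line which are still isolated at its left end, the number of cells of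
the connected block in the middle, and the number of isolated cells at its right end.
-/

set_option autoImplicit false

namespace Pool.Agent.Results.MP_8704cc_co.QSystem

open Pool.Agent.H91R3.DC

/-- For every `n` there are finitely many `d₋`-convex polyominoes of area `n` up to translation;
the system of `q`-functional equations `System` has exactly one solution `(X, Y, Z)` in
`ℤ⟦q⟧⟦y⟧`; and the area generating function of `d₋`-convex polyominoes is
`A(q) = q + X(q) + 2 Y(q) + Z(q)` for this solution. -/
theorem result :
    (∀ n : ℕ, (classes n).Finite) ∧
    (∃! S : PowerSeries PS × PowerSeries PS × PowerSeries PS, System S.1 S.2.1 S.2.2) ∧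
    ∀ X Y Z : PowerSeries PS, System X Y Z →
      (PowerSeries.mk fun n => (numDC n : ℤ)) = qq + atq (X + 2 * Y + Z) :=
  ⟨classes_finite, main.1, main.2⟩

end Pool.Agent.Results.MP_8704cc_co.QSystem
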